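import Pool.Agent.H14.Rm1
set_option autoImplicit false

namespace Pool.Agent.Results.MP_cd59f5_co.Antisymm

/-- The set R(M) of non-increasing positive sequences that can realize the matching M. -/
def R {n : ℕ} (M : (⊤ : SimpleGraph (Fin n)).Subgraph) : Set (Fin n → ℕ) :=
  {d | Antitone d ∧ (∀ i, 1 ≤ d i) ∧ ∃ G : SimpleGraph (Fin n),
    (∀ i, (G.neighborSet i).ncard = d i) ∧ M.edgeSet ⊆ G.edgeSet}

open Pool.Agent.H14.Rm Finset in
theorem result (n : ℕ) (M N : (⊤ : SimpleGraph (Fin n)).Subgraph) (hM : M.IsPerfectMatching)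
    (hN : N.IsPerfectMatching) (h1 : R N ⊆ R M) (h2 : R M ⊆ R N) : M = N := by
  classical
  have dd : ∀ (G : SimpleGraph (Fin n)) i, (G.neighborSet i).ncard = dg G i := fun G i => by
    rw [dg, ← Set.ncard_coe_finset]; congr 1; ext; simp
  have pm : ∀ M : (⊤ : SimpleGraph (Fin n)).Subgraph, M.IsPerfectMatching →
      ∃ f : Fin n → Fin n, ∀ x y, M.Adj x y ↔ y = f x := fun M hM => by
    choose f a b using SimpleGraph.Subgraph.isPerfectMatching_iff.1 hM
    exact ⟨f, fun x y => ⟨b x y, fun h => h ▸ a x⟩⟩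
  have key : ∀ (M N : (⊤ : SimpleGraph (Fin n)).Subgraph) (f g : Fin n → Fin n),
      (∀ x y, M.Adj x y ↔ y = f x) → (∀ x y, N.Adj x y ↔ y = g x) → R N ⊆ R M →
      ∀ u, (∀ x, x < u → f x = g x) → ¬ f u < g u := fun M N f g hf hg h u hu lt => by
    have f2 : ∀ x, f (f x) = x := fun x => ((hf _ _).1 ((hf x _).2 rfl).symm).symm
    have g2 : ∀ x, g (g x) = x := fun x => ((hg _ _).1 ((hg x _).2 rfl).symm).symm
    have f0 : f u ≠ u := (M.adj_sub ((hf u _).2 rfl)).ne'
    have g0 : ∀ x, g x ≠ x := fun x => (N.adj_sub ((hg x _).2 rfl)).ne'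
    obtain ⟨G, a, b, c⟩ := core f g f2 g2 g0 u hu (by
      have := hu (f u); have := g2 (f u); have := f2 u; grind) lt
    obtain ⟨-, -, G', p, q⟩ := h (a := dg G) ⟨b, fun i => card_pos.2 ⟨g i, by simpa using a i⟩,
      G, dd G, fun e he => by
        induction e using Sym2.ind with
        | h x y => rw [(hg x y).1 he]; exact a x⟩
    exact c G' (fun x => q (a := s(x, f x)) ((hf x _).2 rfl)) (funext fun i => by rw [← dd, p])
  obtain ⟨f, hf⟩ := pm M hM
  obtain ⟨g, hg⟩ := pm N hN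
  have e : ∀ u, f u = g u := fun u => by
    induction u using WellFoundedLT.induction with
    | ind u ih =>
      exact le_antisymm (not_lt.1 (key N M g f hg hf h2 u fun x hx => (ih x hx).symm))
        (not_lt.1 (key M N f g hf hg h1 u ih))
  ext x y
  · simp [hM.2.verts_eq_univ, hN.2.verts_eq_univ]
  · rw [hf, hg, e]

end Pool.Agent.Results.MP_cd59f5_co.Antisymm
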